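import Pool.Agent.U409.OA.Stm3

set_option autoImplicit false

/-! Project OA: assembly. -/

namespace Pool.Agent.U409.OA

open Finset Filter Topology

noncomputable def zz : ℂ := 1 / 2 + (Real.sqrt 3 : ℝ) / 2 * Complex.I

lemma zz_sq : zz ^ 2 = zz - 1 := by
  have h3 : ((Real.sqrt 3 : ℝ) : ℂ) ^ 2 = 3 := by
    rw [← Complex.ofReal_pow, Real.sq_sqrt (by norm_num)]; norm_num
  have hI : Complex.I ^ 2 = -1 := Complex.I_sq
  unfold zz
  linear_combination (1 / 4 * Complex.I ^ 2) * h3 + (3 / 4) * hI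

lemma z_ne {z : ℂ} (hz : z ^ 2 = z - 1) : z ≠ 0 := by
  rintro rfl; norm_num at hz

lemma z2_ne {z : ℂ} (hz : z ^ 2 = z - 1) : z - 2 ≠ 0 := by
  intro h
  have h2 : z = 2 := by linear_combination h
  rw [h2] at hz; norm_num at hz

lemma Vp_cons {n : ℕ} (x : ℂ) (u : Fin n → ℂ) :
    Vp (Fin.cons x u : Fin (n + 1) → ℂ) = (∏ k, (x - u k) * (x * u k - 1)) * Vp u := by
  unfold Vp
  rw [Fin.prod_univ_succ]
  congr 1
  · rw [Fin.Ioi_zero_eq_map, Finset.prod_map]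
    refine Finset.prod_congr rfl fun k _ => ?_
    simp
  · refine Finset.prod_congr rfl fun k _ => ?_
    rw [Fin.Ioi_succ, Finset.prod_map]
    refine Finset.prod_congr rfl fun j _ => ?_
    simp

/-- the parameters `q, q^2, ..., q^N` -/
noncomputable def uq (N : ℕ) (q : ℝ) (i : Fin N) : ℂ := (q : ℂ) ^ ((i : ℕ) + 1)

noncomputable def Den (N : ℕ) (q : ℝ) : ℂ := ∏ i : Fin N, ∏ j ∈ Ioi i,
  (((q : ℂ) ^ ((i : ℕ) + 1) - (q : ℂ) ^ ((j : ℕ) + 1)) *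
    ((q : ℂ) ^ ((i : ℕ) + 1) * (q : ℂ) ^ ((j : ℕ) + 1) - 1))

lemma Vp_uq (N : ℕ) (q : ℝ) : Vp (uq N q) = Den N q := rfl

lemma pow_inj {q : ℝ} (hq : 1 < q) {a b : ℕ} (h : q ^ a = q ^ b) : a = b :=
  pow_right_injective₀ (by linarith) (by linarith) h

lemma Den_ne (N : ℕ) {q : ℝ} (hq : 1 < q) : Den N q ≠ 0 := by
  unfold Den
  rw [Finset.prod_ne_zero_iff]
  intro i _
  rw [Finset.prod_ne_zero_iff]
  intro j hj
  rw [Finset.mem_Ioi] at hj
  refine mul_ne_zero ?_ ?_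
  · intro h
    have h1 : q ^ ((i : ℕ) + 1) = q ^ ((j : ℕ) + 1) := by
      exact_mod_cast sub_eq_zero.mp h
    have h2 := pow_inj hq h1
    have h3 : (i : ℕ) < j := hj
    omega
  · intro h
    have h1 : q ^ ((i : ℕ) + 1) * q ^ ((j : ℕ) + 1) = 1 := by
      exact_mod_cast sub_eq_zero.mp h
    have h2 : 1 < q ^ ((i : ℕ) + 1) := one_lt_pow₀ hq (by omega)
    have h3 : 1 < q ^ ((j : ℕ) + 1) := one_lt_pow₀ hq (by omega)
    nlinarith

lemma S_I_iff : S_I ↔ ∀ (z : ℂ), z ^ 2 = z - 1 → ∀ (m : ℕ) (v : List ℝ), v.length = 2 * m →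
  (∀ t ∈ v, 1 < t) → v.Nodup → ∀ x : ℂ, x ≠ 0 →
    I1 z m (x :: List.map (fun t : ℝ => (t : ℂ)) v) := by
  have h : ∀ v : List ℝ, (List.map (fun t : ℂ => t) (do let a ← v; pure (a : ℂ)) : List ℂ) =
      List.map (fun t : ℝ => (t : ℂ)) v := by
    intro v
    induction v with
    | nil => rfl
    | cons a l ih => simpa using ih
  unfold S_I
  constructor
  · intro H z hz m v h1 h2 h3 x hx
    have := H z hz m v h1 h2 h3 x hx
    rwa [h] at this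
  · intro H z hz m v h1 h2 h3 x hx
    rw [h]
    exact H z hz m v h1 h2 h3 x hx

/-- the left side of (I) at `q, ..., q^N` -/
noncomputable def LI (z : ℂ) (n : ℕ) (q : ℝ) : ℂ :=
  A z (List.ofFn (uq (2 * n + 1) q)) * (∏ i, (1 + z ^ 2 * uq (2 * n + 1) q i)) +
    (∏ i, (uq (2 * n + 1) q i) ^ (2 * n)) * A z (List.ofFn fun i => (uq (2 * n + 1) q i)⁻¹) *
      (∏ i, (uq (2 * n + 1) q i + z ^ 2))

lemma step1 (hI : S_I) {z : ℂ} (hz : z ^ 2 = z - 1) (n : ℕ) {q : ℝ} (hq : 1 < q) :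
    LI z n q = z ^ (2 * n + 1) / (z - 2) * (∏ i, (1 + uq (2 * n + 1) q i)) *
      G z (List.ofFn (uq (2 * n + 1) q) ++ [-1]) := by
  have h := S_I_iff.mp hI z hz n (List.ofFn fun i : Fin (2 * n) => q ^ ((i : ℕ) + 2)) (by simp)
    (by
      intro t ht
      rw [List.mem_ofFn] at ht
      obtain ⟨i, rfl⟩ := ht
      exact one_lt_pow₀ hq (by omega))
    (by
      rw [List.nodup_ofFn]
      intro i j hij
      have := pow_inj hq hij
      exact Fin.ext (by omega))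
    (q : ℂ) (by
      have : q ≠ 0 := by linarith
      exact_mod_cast this)
  have hl : ((q : ℂ) :: List.map (fun t : ℝ => (t : ℂ))
      (List.ofFn fun i : Fin (2 * n) => q ^ ((i : ℕ) + 2))) = List.ofFn (uq (2 * n + 1) q) := by
    rw [List.ofFn_succ, List.map_ofFn]
    congr 1
    · simp [uq]
    · congr 1
      funext i
      simp [uq]
  rw [hl] at h
  unfold I1 at h
  simp only [List.map_ofFn, List.prod_ofFn, Function.comp_def] at h
  exact h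

lemma step2 (hP : S_PERM) (hII : S_II) {z : ℂ} (hz : z ^ 2 = z - 1) (n : ℕ) {q : ℝ}
    (hq : 1 < q) :
    G z (List.ofFn (uq (2 * n + 1) q) ++ [-1]) * (∏ i, (1 + uq (2 * n + 1) q i)) ^ 2 =
      (-(z - 2)) ^ (n + 1) * z ^ (2 * (n + 1) * n) *
        (D (n + 1) (Fin.cons (-1) (uq (2 * n + 1) q) : Fin (2 * n + 2) → ℂ) /
          Den (2 * n + 1) q) := by
  have hp := (hP z hz (List.ofFn (uq (2 * n + 1) q) ++ [-1]) (-1 :: List.ofFn (uq (2 * n + 1) q))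
    (List.perm_append_comm)).1
  have h := hII z hz n (fun i => q ^ ((i : ℕ) + 1)) (fun i => one_lt_pow₀ hq (by omega))
    (by
      intro i j hij
      have := pow_inj hq hij
      exact Fin.ext (by omega)) (-1)
  have hu : (fun i : Fin (2 * n + 1) => (((q ^ ((i : ℕ) + 1) : ℝ)) : ℂ)) = uq (2 * n + 1) q := by
    funext i; simp [uq]
  rw [hu] at h
  rw [hp]
  have hd := Den_ne (2 * n + 1) hq
  rw [← mul_div_assoc, eq_div_iff hd, ← h, Vp_cons, Vp_uq, ← Finset.prod_pow]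
  have : (∏ k, (-1 - uq (2 * n + 1) q k) * (-1 * uq (2 * n + 1) q k - 1)) =
      ∏ k, (1 + uq (2 * n + 1) q k) ^ 2 := by
    refine Finset.prod_congr rfl fun k _ => ?_
    ring
  rw [this]
  ring

lemma uq_ne (N : ℕ) {q : ℝ} (hq : 1 < q) (i : Fin N) : 1 + uq N q i ≠ 0 := by
  unfold uq
  intro h
  have h1 : (1 : ℝ) + q ^ ((i : ℕ) + 1) = 0 := by exact_mod_cast h
  have h2 : 1 < q ^ ((i : ℕ) + 1) := one_lt_pow₀ hq (by omega)
  linarith

/-- the right side -/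
noncomputable def RI (z : ℂ) (n : ℕ) (q : ℝ) : ℂ :=
  z ^ (2 * n + 1) / (z - 2) * ((-(z - 2)) ^ (n + 1) * z ^ (2 * (n + 1) * n) *
        (D (n + 1) (Fin.cons (-1) (uq (2 * n + 1) q) : Fin (2 * n + 2) → ℂ) /
          Den (2 * n + 1) q)) / (∏ i, (1 + uq (2 * n + 1) q i))

lemma step3 (hP : S_PERM) (hI : S_I) (hII : S_II) {z : ℂ} (hz : z ^ 2 = z - 1) (n : ℕ) {q : ℝ}
    (hq : 1 < q) : LI z n q = RI z n q := by
  have h1 := step1 hI hz n hq
  have h2 := step2 hP hII hz n hq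
  have h3 : (∏ i, (1 + uq (2 * n + 1) q i)) ≠ 0 :=
    Finset.prod_ne_zero_iff.mpr fun i _ => uq_ne _ hq i
  unfold RI
  rw [h1, ← h2]
  field_simp

lemma uq_one (N : ℕ) (i : Fin N) : uq N 1 i = 1 := by simp [uq]

lemma tend_uq (N : ℕ) (i : Fin N) : ContinuousAt (fun q : ℝ => uq N q i) 1 := by
  unfold uq
  exact (Complex.continuous_ofReal.pow _).continuousAt

lemma tend_A (hC : S_CONT) (z : ℂ) (N : ℕ) (F : Fin N → ℝ → ℂ)
    (hF : ∀ i, ContinuousAt (F i) 1) (h1 : ∀ i, F i 1 = 1) :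
    Tendsto (fun q : ℝ => A z (List.ofFn fun i => F i q)) (𝓝[>] 1)
      (𝓝 (A z (List.replicate N 1))) := by
  have h := (hC z (List.ofFn F) 1 (by
    intro f hf
    rw [List.mem_ofFn] at hf
    obtain ⟨i, rfl⟩ := hf
    exact hF i)).2
  simp only [List.map_ofFn, Function.comp_def] at h
  have h2 := (h.tendsto).mono_left (nhdsWithin_le_nhds (s := Set.Ioi (1 : ℝ)))
  simp only [h1] at h2
  rwa [List.ofFn_const] at h2

lemma tend_L (hC : S_CONT) {z : ℂ} (hz : z ^ 2 = z - 1) (n : ℕ) :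
    Tendsto (LI z n) (𝓝[>] 1)
      (𝓝 (2 * z ^ (2 * n + 1) * A z (List.replicate (2 * n + 1) 1))) := by
  have hu : ∀ i, Tendsto (fun q : ℝ => uq (2 * n + 1) q i) (𝓝[>] 1) (𝓝 1) := by
    intro i
    have h := (tend_uq (2 * n + 1) i).tendsto.mono_left (nhdsWithin_le_nhds (s := Set.Ioi (1 : ℝ)))
    rwa [uq_one] at h
  have a1 := tend_A hC z (2 * n + 1) (fun i q => uq (2 * n + 1) q i) (fun i => tend_uq _ i)
    (fun i => uq_one _ i)
  have a2 := tend_A hC z (2 * n + 1) (fun i q => (uq (2 * n + 1) q i)⁻¹)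
    (fun i => (tend_uq _ i).inv₀ (by rw [uq_one]; norm_num)) (fun i => by simp [uq_one])
  have b1 : Tendsto (fun q : ℝ => ∏ i, (1 + z ^ 2 * uq (2 * n + 1) q i)) (𝓝[>] 1)
      (𝓝 (∏ _i : Fin (2 * n + 1), (1 + z ^ 2 * 1))) :=
    tendsto_finsetProd _ fun i _ => ((hu i).const_mul _).const_add _
  have b2 : Tendsto (fun q : ℝ => ∏ i, (uq (2 * n + 1) q i) ^ (2 * n)) (𝓝[>] 1)
      (𝓝 (∏ _i : Fin (2 * n + 1), (1 : ℂ) ^ (2 * n))) :=
    tendsto_finsetProd _ fun i _ => (hu i).pow _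
  have b3 : Tendsto (fun q : ℝ => ∏ i, (uq (2 * n + 1) q i + z ^ 2)) (𝓝[>] 1)
      (𝓝 (∏ _i : Fin (2 * n + 1), ((1 : ℂ) + z ^ 2))) :=
    tendsto_finsetProd _ fun i _ => (hu i).add_const _
  have h := (a1.mul b1).add ((b2.mul a2).mul b3)
  have e : A z (List.replicate (2 * n + 1) 1) * (∏ _i : Fin (2 * n + 1), (1 + z ^ 2 * 1)) +
      (∏ _i : Fin (2 * n + 1), (1 : ℂ) ^ (2 * n)) * A z (List.replicate (2 * n + 1) 1) *
        (∏ _i : Fin (2 * n + 1), ((1 : ℂ) + z ^ 2)) =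
      2 * z ^ (2 * n + 1) * A z (List.replicate (2 * n + 1) 1) := by
    have : (1 : ℂ) + z ^ 2 = z := by rw [hz]; ring
    simp only [mul_one, one_pow, Finset.prod_const, Finset.card_univ, Fintype.card_fin, this]
    ring
  rw [e] at h
  exact h

lemma tend_R (hDL : S_DLIM) {z : ℂ} (n : ℕ) :
    Tendsto (RI z n) (𝓝[>] 1)
      (𝓝 (z ^ (2 * n + 1) / (z - 2) * ((-(z - 2)) ^ (n + 1) * z ^ (2 * (n + 1) * n) *
        (((SV n / (((2 * n + 1).factorial : ℚ) * Wv (2 * n + 1)) : ℚ) : ℂ))) /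
          2 ^ (2 * n + 1))) := by
  have hu : ∀ i, Tendsto (fun q : ℝ => uq (2 * n + 1) q i) (𝓝[>] 1) (𝓝 1) := by
    intro i
    have h := (tend_uq (2 * n + 1) i).tendsto.mono_left (nhdsWithin_le_nhds (s := Set.Ioi (1 : ℝ)))
    rwa [uq_one] at h
  have b1 : Tendsto (fun q : ℝ => ∏ i, (1 + uq (2 * n + 1) q i)) (𝓝[>] 1)
      (𝓝 (∏ _i : Fin (2 * n + 1), ((1 : ℂ) + 1))) :=
    tendsto_finsetProd _ fun i _ => (hu i).const_add _
  have e : (∏ _i : Fin (2 * n + 1), ((1 : ℂ) + 1)) = 2 ^ (2 * n + 1) := by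
    rw [Finset.prod_const, Finset.card_univ, Fintype.card_fin]; norm_num
  rw [e] at b1
  have h := ((((hDL n).const_mul ((-(z - 2)) ^ (n + 1) * z ^ (2 * (n + 1) * n))).const_mul
    (z ^ (2 * n + 1) / (z - 2))).div b1 (pow_ne_zero _ two_ne_zero))
  exact h

theorem key (hP : S_PERM) (hC : S_CONT) (hI : S_I) (hII : S_II) (hDL : S_DLIM) {z : ℂ}
    (hz : z ^ 2 = z - 1) (n : ℕ) :
    A z (List.replicate (2 * n + 1) 1) * ((z - 2) * 4 ^ (n + 1)) =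
      (-(z - 2)) ^ (n + 1) * z ^ (2 * (n + 1) * n) *
        (((SV n / (((2 * n + 1).factorial : ℚ) * Wv (2 * n + 1)) : ℚ) : ℂ)) := by
  have h1 := tend_L hC hz n
  have h2 := tend_R hDL (z := z) n
  have h3 : LI z n =ᶠ[𝓝[>] 1] RI z n := by
    filter_upwards [self_mem_nhdsWithin] with q hq
    exact step3 hP hI hII hz n hq
  have h4 := tendsto_nhds_unique (h1.congr' h3) h2
  have z0 := z_ne hz
  have z2 := z2_ne hz
  set Q : ℂ := (((SV n / (((2 * n + 1).factorial : ℚ) * Wv (2 * n + 1)) : ℚ) : ℂ)) with hQ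
  have e4 : (4 : ℂ) ^ (n + 1) = 2 * 2 ^ (2 * n + 1) := by
    rw [show (4 : ℂ) = 2 ^ 2 by norm_num, ← pow_mul, ← pow_succ']; ring_nf
  rw [e4]
  have h5 : 2 * z ^ (2 * n + 1) * A z (List.replicate (2 * n + 1) 1) * ((z - 2) * 2 ^ (2 * n + 1)) =
      z ^ (2 * n + 1) * ((-(z - 2)) ^ (n + 1) * z ^ (2 * (n + 1) * n) * Q) := by
    rw [h4]; field_simp
  have h6 : z ^ (2 * n + 1) ≠ 0 := pow_ne_zero _ z0
  apply mul_left_cancel₀ h6
  linear_combination h5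

theorem count (hP : S_PERM) (hC : S_CONT) (hI : S_I) (hII : S_II) (hDL : S_DLIM) (hCC : S_CC)
    (n : ℕ) :
    ((Nat.card (OS n) : ℕ) : ℚ) =
      -(SV n / (((2 * n + 1).factorial : ℚ) * Wv (2 * n + 1))) / (3 ^ (n ^ 2) * 4 ^ (n + 1)) := by
  have hz := zz_sq
  have h1 := key hP hC hI hII hDL hz n
  rw [hCC zz hz n] at h1
  set Q : ℚ := SV n / (((2 * n + 1).factorial : ℚ) * Wv (2 * n + 1)) with hQ
  set z := zz with hzz
  have z0 := z_ne hz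
  have z2 := z2_ne hz
  have hk : (z - 2) ^ 2 = -3 * z ^ 2 := by linear_combination 4 * hz
  -- (z-2)^(n(2n+1)) * (z-2) = (z-2)^(2n^2) * (z-2)^(n+1)
  have e1 : (z - 2) ^ (n * (2 * n + 1)) * (z - 2) = (-3 * z ^ 2) ^ (n ^ 2) * (z - 2) ^ (n + 1) := by
    rw [← hk, ← pow_mul, ← pow_succ, ← pow_add]
    congr 1; ring
  have e2 : (-(z - 2)) ^ (n + 1) = (-1) ^ (n + 1) * (z - 2) ^ (n + 1) := by
    rw [← mul_pow]; congr 1; ring
  have e3 : (-3 * z ^ 2) ^ (n ^ 2) = (-1) ^ (n ^ 2) * 3 ^ (n ^ 2) * z ^ (2 * n ^ 2) := by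
    rw [show (-3 * z ^ 2) = (-1) * 3 * z ^ 2 by ring, mul_pow, mul_pow, ← pow_mul]
  have e4 : z ^ (2 * (n + 1) * n) = z ^ (2 * n ^ 2) * z ^ (2 * n) := by
    rw [← pow_add]; congr 1; ring
  have e5 : (-1 : ℂ) ^ (n ^ 2) = (-1) ^ n := by
    rcases Nat.even_or_odd n with h | h
    · rw [h.neg_one_pow, (h.pow_of_ne_zero (by norm_num)).neg_one_pow]
    · rw [h.neg_one_pow, h.pow.neg_one_pow]
  have h2 : (z - 2) ^ (n + 1) * z ^ (2 * n ^ 2) * z ^ (2 * n) * (-1) ^ n *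
      ((3 : ℂ) ^ (n ^ 2) * 4 ^ (n + 1) * (Nat.card (OS n) : ℂ)) =
      (z - 2) ^ (n + 1) * z ^ (2 * n ^ 2) * z ^ (2 * n) * (-1) ^ n * (-(Q : ℂ)) := by
    rw [e2, e4] at h1
    have : (z - 2) ^ (n * (2 * n + 1)) * z ^ (2 * n) * (Nat.card (OS n) : ℂ) *
        ((z - 2) * 4 ^ (n + 1)) = ((z - 2) ^ (n * (2 * n + 1)) * (z - 2)) * z ^ (2 * n) *
          (Nat.card (OS n) : ℂ) * 4 ^ (n + 1) := by ring
    rw [this, e1, e3, e5] at h1
    rw [pow_succ (-1 : ℂ) n] at h1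
    linear_combination h1
  have h3 : (z - 2) ^ (n + 1) * z ^ (2 * n ^ 2) * z ^ (2 * n) * (-1) ^ n ≠ 0 := by
    refine mul_ne_zero (mul_ne_zero (mul_ne_zero ?_ ?_) ?_) ?_
    · exact pow_ne_zero _ z2
    · exact pow_ne_zero _ z0
    · exact pow_ne_zero _ z0
    · exact pow_ne_zero _ (by norm_num)
  have h4 := mul_left_cancel₀ h3 h2
  have h5 : (3 : ℚ) ^ (n ^ 2) * 4 ^ (n + 1) * (Nat.card (OS n) : ℚ) = -Q := by
    exact_mod_cast h4
  rw [eq_div_iff (by positivity)]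
  linear_combination h5

theorem main (hP : S_PERM) (hC : S_CONT) (hI : S_I) (hII : S_II) (hDL : S_DLIM) (hCC : S_CC)
    (hSVT : S_SVT) (hT : S_T) (hPR : S_PRODF) :
    ∀ n : ℕ, 1 ≤ n →
      ((Nat.card {A : Matrix (Fin (2 * n + 1)) (Fin (2 * n + 1)) ℤ //
          (∀ i j, A i j = -1 ∨ A i j = 0 ∨ A i j = 1) ∧
          (∀ i k, (∑ j ∈ Finset.Iic k, A i j) = 0 ∨ (∑ j ∈ Finset.Iic k, A i j) = 1) ∧
          (∀ i, (∑ j, A i j) = 1) ∧
          (∀ j k, (∑ i ∈ Finset.Iic k, A i j) = 0 ∨ (∑ i ∈ Finset.Iic k, A i j) = 1) ∧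
          (∀ j, (∑ i, A i j) = 1) ∧
          (∀ i j, A i j = A j i) ∧
          (∃ d : Fin (2 * n + 1), ∀ i, i ≠ d → A i i = 0)} : ℕ) : ℚ)
        = (2 : ℚ) ^ (n - 1) * ((Nat.factorial (3 * n + 2) : ℕ) : ℚ)
            / ((Nat.factorial (2 * n + 1) : ℕ) : ℚ)
          * ∏ i ∈ Finset.Icc 1 n,
              (((Nat.factorial (6 * i - 2) : ℕ) : ℚ)
                / ((Nat.factorial (2 * n + 2 * i + 1) : ℕ) : ℚ)) := by
  intro n hn
  have h1 := count hP hC hI hII hDL hCC n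
  rw [hSVT n, hT n] at h1
  refine Eq.trans h1 ?_
  rw [← hPR n hn]
  simp only [div_eq_mul_inv, mul_inv]
  ring

end Pool.Agent.U409.OA
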