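import Pool.Agent.U409.OA.Stm2

set_option autoImplicit false

/-! Project OA: statements of the packages around (II). -/

namespace Pool.Agent.U409.OA

open Finset Filter Topology

/-- Package SGN: `Vp` and `D` are antisymmetric. -/
def S_SGN : Prop := ∀ (m n : ℕ) (w : Fin n → ℂ) (σ : Equiv.Perm (Fin n)),
  Vp (w ∘ σ) = ((Equiv.Perm.sign σ : ℤ) : ℂ) * Vp w ∧
  D m (w ∘ σ) = ((Equiv.Perm.sign σ : ℤ) : ℂ) * D m w

/-- the identity (II) -/
def I2 (z : ℂ) (m : ℕ) {n : ℕ} (w : Fin n → ℂ) : Prop :=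
  G z (List.ofFn w) * Vp w = (-(z - 2)) ^ m * z ^ (2 * m * (m - 1)) * D m w

/-- Package IIC: (II) when the first two parameters have the product `z^2`. -/
def S_IIC : Prop := ∀ (z : ℂ), z ^ 2 = z - 1 → ∀ (m : ℕ) (x y : ℂ) (u : Fin (2 * m) → ℂ),
  x * y = z ^ 2 → I2 z m u →
  I2 z (m + 1) (Fin.cons x (Fin.cons y u : Fin (2 * m + 1) → ℂ) : Fin (2 * m + 2) → ℂ)

/-- Package IC2: the identity (I) when the first two parameters have the product `z^(-2)`. -/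
def S_IC2 : Prop := ∀ (z : ℂ), z ^ 2 = z - 1 → ∀ (m : ℕ) (x y : ℂ) (v : List ℂ),
  v.length = 2 * m + 1 → (∀ t ∈ v, t ≠ 0) → z ^ 2 * (x * y) = 1 → I1 z m v →
  I1 z (m + 1) (x :: y :: v)

end Pool.Agent.U409.OA
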