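import Mathlib

set_option autoImplicit false

/-! Project OA: the number of off-diagonally symmetric alternating sign matrices of odd order
(frozen statement S11587). Definitions and package statements. -/

namespace Pool.Agent.U409.OA

open Finset Filter Topology

/-! ### The vertex model -/

/-- One row: the row line `w` in the state `r` crosses the columns in the states `c`; the continuation `k`
is applied to the final row state and to the new column states. -/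
def row {L R : Type} [CommSemiring R] (X : L → L → Bool → Bool → Bool → Bool → R) (w : L) :
    List L → Bool → List Bool → (Bool → List Bool → R) → R
  | [], r, _, k => k r []
  | _ :: _, _, [], _ => 0
  | v :: vs, r, c :: cs, k =>
      ∑ r' : Bool, ∑ c' : Bool,
        X w v r c r' c' * row X w vs r' cs (fun t cs' => k t (c' :: cs'))

/-- The partition function of the triangle: line `w` is reflected (`K w s r`), crosses all later lines
and must leave in the state `true`. -/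
def Z {L R : Type} [CommSemiring R] (X : L → L → Bool → Bool → Bool → Bool → R)
    (K : L → Bool → Bool → R) : List L → List Bool → R
  | [], _ => 1
  | _ :: _, [] => 0
  | w :: ws, s :: ss =>
      ∑ r : Bool, K w s r * row X w ws r ss (fun t ss' => if t then Z X K ws ss' else 0)

/-- crossing weights (argument `W = w_i w_j`) -/
def cw {R : Type} [CommRing R] (z W : R) : Bool → Bool → Bool → Bool → R
  | false, false, false, false => z ^ 2 * W - 1
  | true, true, true, true => z ^ 2 * W - 1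
  | false, false, true, true => z - 2
  | true, true, false, false => (z - 2) * W
  | false, true, false, true => z ^ 2 - W
  | true, false, true, false => z ^ 2 - W
  | _, _, _, _ => 0

/-- parallel crossing weights -/
def sw {R : Type} [CommRing R] (z a b : R) : Bool → Bool → Bool → Bool → R
  | false, false, false, false => z * a + z ^ 2 * b
  | true, true, true, true => z * a + z ^ 2 * b
  | false, true, true, false => a - b
  | true, false, false, true => a - b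
  | false, true, false, true => (2 * z - 1) * a
  | true, false, true, false => (2 * z - 1) * b
  | _, _, _, _ => 0

/-- reflection weights with toggles -/
def ke {R : Type} [CommRing R] (z e w : R) (s r : Bool) : R :=
  if s = r then w + z ^ 2 else if s then e * w else e

/-- reflection weights without toggles -/
def k0 {R : Type} [CommRing R] (s r : Bool) : R := if s = r then 1 else 0

/-- Yang-Baxter, two columns -/
def YBcol {L R : Type} [CommRing R] (X S : L → L → Bool → Bool → Bool → Bool → R) : Prop :=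
  ∀ (w a b : L) (r c1 c2 r' c1' c2' : Bool),
    ∑ d1 : Bool, ∑ d2 : Bool,
      S a b c1 c2 d1 d2 * (∑ r1 : Bool, X w a r d1 r1 c1' * X w b r1 d2 r' c2') =
    ∑ d1 : Bool, ∑ d2 : Bool,
      (∑ r1 : Bool, X w b r c1 r1 d1 * X w a r1 c2 r' d2) * S a b d1 d2 c1' c2'

/-- Yang-Baxter, two rows -/
def YBrow {L R : Type} [CommRing R] (X S : L → L → Bool → Bool → Bool → Bool → R) : Prop :=
  ∀ (a b j : L) (t1 t2 c t1' t2' c' : Bool),
    ∑ d1 : Bool, ∑ d2 : Bool,
      S a b t1 t2 d1 d2 * (∑ c1 : Bool, X a j d1 c t1' c1 * X b j d2 c1 t2' c') =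
    ∑ d1 : Bool, ∑ d2 : Bool,
      (∑ c1 : Bool, X b j t1 c d1 c1 * X a j t2 c1 d2 c') * S a b d1 d2 t1' t2'

/-- the reflection equation -/
def RE {L R : Type} [CommRing R] (X : L → L → Bool → Bool → Bool → Bool → R)
    (K : L → Bool → Bool → R) (S : L → L → Bool → Bool → Bool → Bool → R) : Prop :=
  ∀ (a b : L) (s1 s2 t1 t2 : Bool),
    ∑ d1 : Bool, ∑ d2 : Bool, S a b s1 s2 d1 d2 *
      (∑ r1 : Bool, ∑ c : Bool, K a d1 r1 * X a b r1 d2 t1 c * K b c t2) =
    ∑ d1 : Bool, ∑ d2 : Bool,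
      (∑ r1 : Bool, ∑ c : Bool, K b s1 r1 * X b a r1 s2 d1 c * K a c d2) * S a b d1 d2 t1 t2

def EigIn {L R : Type} [CommRing R] (S : L → L → Bool → Bool → Bool → Bool → R) (α : L → L → R) :
    Prop :=
  ∀ a b d1 d2, S a b false false d1 d2 = if d1 = false ∧ d2 = false then α a b else 0

def EigOut {L R : Type} [CommRing R] (S : L → L → Bool → Bool → Bool → Bool → R) (α : L → L → R) :
    Prop :=
  ∀ a b d1 d2, S a b d1 d2 true true = if d1 = true ∧ d2 = true then α a b else 0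

/-- Package YB: the matrix identities. -/
def S_YB : Prop := ∀ (R : Type) [CommRing R] (z e : R), z ^ 2 = z - 1 →
  YBcol (L := R) (fun a b => cw z (a * b)) (sw z) ∧
  YBrow (L := R) (fun a b => cw z (a * b)) (sw z) ∧
  RE (L := R) (fun a b => cw z (a * b)) (ke z e) (sw z) ∧
  RE (L := R) (fun a b => cw z (a * b)) (fun _ => k0) (sw z) ∧
  EigIn (L := R) (sw z) (fun a b => z * a + z ^ 2 * b) ∧
  EigOut (L := R) (sw z) (fun a b => z * a + z ^ 2 * b)

/-- Package SYM: adjacent lines may be exchanged. -/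
def S_SYM : Prop := ∀ (L R : Type) [CommRing R]
  (X S : L → L → Bool → Bool → Bool → Bool → R) (K : L → Bool → Bool → R) (α : L → L → R),
  YBcol X S → YBrow X S → RE X K S → EigIn S α → EigOut S α →
  ∀ (pre post : List L) (a b : L),
    α a b * Z X K (pre ++ a :: b :: post)
      (List.replicate (pre ++ a :: b :: post).length false) =
    α a b * Z X K (pre ++ b :: a :: post)
      (List.replicate (pre ++ b :: a :: post).length false)

/-- the partition function without toggles -/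
noncomputable def G (z : ℂ) (l : List ℂ) : ℂ :=
  Z (fun a b : ℂ => cw z (a * b)) (fun _ => k0) l (List.replicate l.length false)

/-- dual-number partition function -/
noncomputable def ZD (z : ℂ) (l : List ℂ) : DualNumber ℂ :=
  Z (L := ℂ) (R := DualNumber ℂ)
    (fun a b => cw (TrivSqZeroExt.inl z) (TrivSqZeroExt.inl a * TrivSqZeroExt.inl b))
    (fun w => ke (TrivSqZeroExt.inl z) DualNumber.eps (TrivSqZeroExt.inl w))
    l (List.replicate l.length false)

/-- the partition function with exactly one toggle -/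
noncomputable def A (z : ℂ) (l : List ℂ) : ℂ := TrivSqZeroExt.snd (ZD z l)

/-- Package CONT: continuity. -/
def S_CONT : Prop := ∀ (z : ℂ) (l : List (ℝ → ℂ)) (t0 : ℝ), (∀ f ∈ l, ContinuousAt f t0) →
  ContinuousAt (fun t => G z (l.map fun f => f t)) t0 ∧
  ContinuousAt (fun t => A z (l.map fun f => f t)) t0

/-- Package PERM: symmetry. -/
def S_PERM : Prop := ∀ (z : ℂ), z ^ 2 = z - 1 → ∀ l l' : List ℂ, l.Perm l' →
  G z l = G z l' ∧ A z l = A z l'

/-- Package DEG: polynomial in the first variable. -/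
def S_DEG : Prop := ∀ (z : ℂ) (v : List ℂ),
  (v ≠ [] → ∃ P : Polynomial ℂ, P.natDegree ≤ v.length - 1 ∧ ∀ x, G z (x :: v) = P.eval x) ∧
  (∃ P : Polynomial ℂ, P.natDegree ≤ v.length ∧ ∀ x, A z (x :: v) = P.eval x)

/-- Package SPEC: the special point. -/
def S_SPEC : Prop := ∀ (z : ℂ) (v : List ℂ),
  A z (-z ^ 2 :: v) = (v.map fun y => (z ^ 2 + z ^ 2 * y) * (y + z ^ 2)).prod * G z v

/-- Package R1: the first recursion. -/
def S_R1 : Prop := ∀ (z x y : ℂ) (v : List ℂ), x * y = z ^ 2 →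
  G z (x :: (v ++ [y])) =
    (z - 2) * (v.map fun k => (z ^ 2 * (x * k) - 1) * (z ^ 2 * (k * y) - 1)).prod * G z v ∧
  A z (x :: (v ++ [y])) = (x + z ^ 2) * (y + z ^ 2) *
    ((z - 2) * (v.map fun k => (z ^ 2 * (x * k) - 1) * (z ^ 2 * (k * y) - 1)).prod) * A z v

/-- Package R2: the second recursion. -/
def S_R2 : Prop := ∀ (z : ℂ), z ^ 2 = z - 1 → ∀ (x y : ℂ) (v : List ℂ), z ^ 2 * (x * y) = 1 →
  G z (x :: y :: v) =
    (z - 2) * (v.map fun k => (z ^ 2 - x * k) * (z ^ 2 - y * k)).prod * G z v ∧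
  A z (x :: y :: v) = (x + z ^ 2) * (y + z ^ 2) *
    ((z - 2) * (v.map fun k => (z ^ 2 - x * k) * (z ^ 2 - y * k)).prod) * A z v

/-- the identity (I) -/
def I1 (z : ℂ) (m : ℕ) (w : List ℂ) : Prop :=
  A z w * (w.map fun y => 1 + z ^ 2 * y).prod +
    (w.map fun y => y ^ (2 * m)).prod * A z (w.map fun y => y⁻¹) * (w.map fun y => y + z ^ 2).prod =
  z ^ (2 * m + 1) / (z - 2) * (w.map fun y => 1 + y).prod * G z (w ++ [-1])

/-- Package I: the main identity. -/
def S_I : Prop := ∀ (z : ℂ), z ^ 2 = z - 1 → ∀ (m : ℕ) (v : List ℝ), v.length = 2 * m →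
  (∀ t ∈ v, 1 < t) → v.Nodup → ∀ x : ℂ, x ≠ 0 → I1 z m (x :: v.map fun t => (t : ℂ))

/-! ### Determinants -/

/-- the exponents 1, 2, 4, 5, 7, 8, ... -/
def ex (j : ℕ) : ℕ := 3 * (j / 2) + j % 2 + 1

noncomputable def gl (m l : ℕ) (x : ℂ) : ℂ := x ^ (3 * m - 1 - l) * ∑ k ∈ range l, x ^ (2 * k)

noncomputable def D (m : ℕ) {n : ℕ} (w : Fin n → ℂ) : ℂ :=
  Matrix.det (Matrix.of fun i j : Fin n => gl m (ex j) (w i))

noncomputable def Vp {n : ℕ} (w : Fin n → ℂ) : ℂ :=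
  ∏ i : Fin n, ∏ j ∈ Ioi i, (w i - w j) * (w i * w j - 1)

/-- Package DREC -/
def S_DREC : Prop := ∀ (z : ℂ), z ^ 2 = z - 1 → ∀ (m : ℕ) (x y : ℂ) (u : Fin (2 * m) → ℂ),
  x * y = z ^ 2 →
  D (m + 1) (Fin.cons x (Fin.cons y u : Fin (2 * m + 1) → ℂ) : Fin (2 * m + 2) → ℂ) =
    -((x - y) * (x * y - 1) * ∏ k, (u k ^ 3 - x ^ 3) * (u k ^ 3 - y ^ 3)) * D m u

/-- Package II -/
def S_II : Prop := ∀ (z : ℂ), z ^ 2 = z - 1 → ∀ (m : ℕ) (v : Fin (2 * m + 1) → ℝ),
  (∀ i, 1 < v i) → Function.Injective v → ∀ x : ℂ,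
  G z (x :: List.ofFn fun i => (v i : ℂ)) *
      Vp (Fin.cons x (fun i => (v i : ℂ)) : Fin (2 * m + 2) → ℂ) =
    (-(z - 2)) ^ (m + 1) * z ^ (2 * (m + 1) * m) *
      D (m + 1) (Fin.cons x (fun i => (v i : ℂ)) : Fin (2 * m + 2) → ℂ)

def Wv (r : ℕ) : ℚ := ∏ i : Fin r, ∏ j ∈ Ioi i, (((i : ℕ) + 1 : ℚ) ^ 2 - ((j : ℕ) + 1 : ℚ) ^ 2)

def SV (n : ℕ) : ℚ := (∏ j : Fin (2 * n + 2), (ex j : ℚ)) *
  ∑ j : Fin (2 * n + 2), (-1 : ℚ) ^ ((j : ℕ) + (3 * n + 2 - ex j)) *
    ∏ k : Fin (2 * n + 1), ∏ k' ∈ Ioi k,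
      ((ex (j.succAbove k') : ℚ) ^ 2 - (ex (j.succAbove k) : ℚ) ^ 2)

/-- Package DLIM: principal specialisation and its limit. -/
def S_DLIM : Prop := ∀ n : ℕ,
  Tendsto (fun q : ℝ => D (n + 1)
      (Fin.cons (-1) (fun i : Fin (2 * n + 1) => (q : ℂ) ^ ((i : ℕ) + 1)) : Fin (2 * n + 2) → ℂ) /
      ∏ i : Fin (2 * n + 1), ∏ j ∈ Ioi i,
        (((q : ℂ) ^ ((i : ℕ) + 1) - (q : ℂ) ^ ((j : ℕ) + 1)) *
          ((q : ℂ) ^ ((i : ℕ) + 1) * (q : ℂ) ^ ((j : ℕ) + 1) - 1)))
    (𝓝[>] 1) (𝓝 (((SV n / (((2 * n + 1).factorial : ℚ) * Wv (2 * n + 1)) : ℚ) : ℂ)))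

/-! ### Evaluation -/

def Tn (n : ℕ) : ℚ := ∑ j : Fin (2 * n + 2), (-1 : ℚ) ^ (ex j) /
  ∏ k ∈ univ.erase j, ((ex j : ℚ) ^ 2 - (ex k : ℚ) ^ 2)

def Vn (n : ℕ) : ℚ := ∏ k : Fin (2 * n + 2), ∏ k' ∈ Ioi k, ((ex k' : ℚ) ^ 2 - (ex k : ℚ) ^ 2)

/-- Package SVT -/
def S_SVT : Prop := ∀ n : ℕ, SV n =
  -(-1) ^ n * (∏ j : Fin (2 * n + 2), (ex j : ℚ)) * Vn n * Tn n

/-- Package T -/
def S_T : Prop := ∀ n : ℕ, Tn n = 2 / 3 * (4 / 9) ^ n /
  (((2 * n + 1).factorial : ℚ) * ∏ i ∈ Icc 1 n, ((6 * i - 1 : ℚ) * (6 * i + 1)))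

/-- Package PRODF -/
def S_PRODF : Prop := ∀ n : ℕ, 1 ≤ n →
  (-1) ^ n * (∏ j : Fin (2 * n + 2), (ex j : ℚ)) * Vn n *
    (2 / 3 * (4 / 9) ^ n /
      (((2 * n + 1).factorial : ℚ) * ∏ i ∈ Icc 1 n, ((6 * i - 1 : ℚ) * (6 * i + 1)))) /
    (3 ^ (n ^ 2) * 4 ^ (n + 1) * ((2 * n + 1).factorial : ℚ) * Wv (2 * n + 1)) =
  (2 : ℚ) ^ (n - 1) * ((Nat.factorial (3 * n + 2) : ℕ) : ℚ)
      / ((Nat.factorial (2 * n + 1) : ℕ) : ℚ)
    * ∏ i ∈ Finset.Icc 1 n,
        (((Nat.factorial (6 * i - 2) : ℕ) : ℚ)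
          / ((Nat.factorial (2 * n + 2 * i + 1) : ℕ) : ℚ))

/-! ### Counting -/

def bz (s : Bool) : ℤ := if s then 1 else 0

/-- symmetric matrices whose shifted partial row sums lie in {0,1} and whose shifted row sums are 1 -/
def Sy (N : ℕ) (s : Fin N → Bool) : Set (Matrix (Fin N) (Fin N) ℤ) :=
  {M | (∀ i j, M i j = M j i) ∧
    (∀ i k, bz (s i) + ∑ j ∈ Finset.Iic k, M i j = 0 ∨ bz (s i) + ∑ j ∈ Finset.Iic k, M i j = 1) ∧
    (∀ i, bz (s i) + ∑ j, M i j = 1)}

def adm (r c r' c' : Bool) : Bool := (r' == r && c' == c) || (r == c && r' == !r && c' == !c)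

/-- Package CB: configurations are matrices. -/
def S_CB : Prop := ∀ (N : ℕ) (s : Fin N → Bool), ∃ hf : (Sy N s).Finite,
  ∀ (R : Type) [CommRing R] (p e : R),
    Z (L := Unit) (fun _ _ r c r' c' => if adm r c r' c' then (1 : R) else 0)
      (fun _ a b => if a = b then p else e) (List.replicate N ()) (List.ofFn s) =
    ∑ M ∈ hf.toFinset, ∏ i, (if M i i = 0 then p else e)

/-- The set of the frozen statement. -/
def OS (n : ℕ) : Type := {A : Matrix (Fin (2 * n + 1)) (Fin (2 * n + 1)) ℤ //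
          (∀ i j, A i j = -1 ∨ A i j = 0 ∨ A i j = 1) ∧
          (∀ i k, (∑ j ∈ Finset.Iic k, A i j) = 0 ∨ (∑ j ∈ Finset.Iic k, A i j) = 1) ∧
          (∀ i, (∑ j, A i j) = 1) ∧
          (∀ j k, (∑ i ∈ Finset.Iic k, A i j) = 0 ∨ (∑ i ∈ Finset.Iic k, A i j) = 1) ∧
          (∀ j, (∑ i, A i j) = 1) ∧
          (∀ i j, A i j = A j i) ∧
          (∃ d : Fin (2 * n + 1), ∀ i, i ≠ d → A i i = 0)}

/-- Package CC: the count from the partition function at 1. -/
def S_CC : Prop := ∀ (z : ℂ), z ^ 2 = z - 1 → ∀ n : ℕ,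
  A z (List.replicate (2 * n + 1) 1) =
    (z - 2) ^ (n * (2 * n + 1)) * z ^ (2 * n) * (Nat.card (OS n) : ℂ)

end Pool.Agent.U409.OA
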