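import Pool.Agent.U409.OA.Stm

set_option autoImplicit false

/-! Project OA: statements of the smaller packages. -/

namespace Pool.Agent.U409.OA

open Finset Filter Topology

/-- the parallel crossing on the positions `n`, `n + 1` of the list of states -/
def sop {L R : Type} [CommRing R] (S : L → L → Bool → Bool → Bool → Bool → R) (a b : L) :
    ℕ → (List Bool → R) → List Bool → R
  | 0, F, c1 :: c2 :: qs => ∑ d1 : Bool, ∑ d2 : Bool, S a b c1 c2 d1 d2 * F (d1 :: d2 :: qs)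
  | n + 1, F, c :: cs => sop S a b n (fun cs' => F (c :: cs')) cs
  | _, _, _ => 0

/-- Package RC: two adjacent columns may be exchanged in a row. -/
def S_RC : Prop := ∀ (L R : Type) [CommRing R] (X S : L → L → Bool → Bool → Bool → Bool → R),
  YBcol X S → ∀ (p q : List L) (a b w : L) (r : Bool) (cs : List Bool) (k : Bool → List Bool → R),
    cs.length = (p ++ a :: b :: q).length →
    sop S a b p.length (fun cs' => row X w (p ++ a :: b :: q) r cs' k) cs =
      row X w (p ++ b :: a :: q) r cs (fun t cs' => sop S a b p.length (k t) cs')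

/-- Package RR: two adjacent rows may be exchanged. -/
def S_RR : Prop := ∀ (L R : Type) [CommRing R] (X S : L → L → Bool → Bool → Bool → Bool → R),
  YBrow X S → ∀ (q : List L) (a b : L) (t1 t2 : Bool) (cs : List Bool)
    (k : Bool → Bool → List Bool → R), cs.length = q.length →
    ∑ d1 : Bool, ∑ d2 : Bool, S a b t1 t2 d1 d2 *
      row X a q d1 cs (fun u1 cs' => row X b q d2 cs' (fun u2 cs'' => k u1 u2 cs'')) =
    row X b q t1 cs (fun u1 cs' => row X a q t2 cs' (fun u2 cs'' =>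
      ∑ d1 : Bool, ∑ d2 : Bool, S a b u1 u2 d1 d2 * k d1 d2 cs''))

/-- Package IA: the identity (I) at the point `-z^2`. -/
def S_IA : Prop := ∀ (z : ℂ), z ^ 2 = z - 1 → ∀ (m : ℕ) (v : List ℂ), v.length = 2 * m →
  (∀ y ∈ v, y ≠ 0) → I1 z m (-z ^ 2 :: v)

/-- Package IB: the identity (I) at the point `z`. -/
def S_IB : Prop := ∀ (z : ℂ), z ^ 2 = z - 1 → ∀ (m : ℕ) (v : List ℂ), v.length = 2 * m →
  (∀ y ∈ v, y ≠ 0) → I1 z m (z :: v)

/-- Package IC: the identity (I) when the first two parameters have the product `z^2`. -/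
def S_IC : Prop := ∀ (z : ℂ), z ^ 2 = z - 1 → ∀ (m : ℕ) (x y : ℂ) (v : List ℂ),
  v.length = 2 * m + 1 → (∀ t ∈ v, t ≠ 0) → x * y = z ^ 2 → I1 z m v → I1 z (m + 1) (x :: y :: v)

/-- Package CHEB -/
def S_CHEB : Prop := ∀ (r : ℕ) (X : Fin r → ℂ), (∀ i, X i ≠ 0) →
  Matrix.det (Matrix.of fun i k : Fin r => X k ^ ((i : ℕ) + 1) - (X k)⁻¹ ^ ((i : ℕ) + 1)) =
    (∏ k, (X k - (X k)⁻¹)) *
      ∏ k : Fin r, ∏ k' ∈ Ioi k, ((X k' + (X k')⁻¹) - (X k + (X k)⁻¹))

/-- rising factorial -/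
def PP (a : ℚ) (k : ℕ) : ℚ := ∏ i ∈ range k, (a + i)

/-- Package U: a very-well-poised sum. -/
def S_U : Prop := ∀ (a : ℚ), (∀ i : ℤ, a ≠ i) → ∀ K : ℕ,
  ∑ s ∈ range (K + 1), (K.choose s : ℚ) * PP a s * (a + 2 * s) / (a * PP (1 + a + K) s) =
    PP (1 + a) K / PP ((1 + a) / 2) K

/-- Package TAU -/
def S_TAU : Prop := ∀ n : ℕ, Tn n = ∑ s ∈ range (2 * n + 2),
  3 * (-1) ^ n / 9 ^ (2 * n + 1) * ((-1) ^ (2 * n + 1 - s) * (2 * s - (2 * n + 1) - 1 / 3) /
    ((s.factorial : ℚ) * ((2 * n + 1 - s).factorial : ℚ) * PP (2 / 3) s * PP (4 / 3) (2 * n + 1 - s)))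

/-- rows of the matrices -/
def Ev (N : ℕ) (r : Bool) (c : Fin N → Bool) : Set (Fin N → ℤ) :=
  {e | (∀ k, bz r + ∑ j ∈ Finset.Iic k, e j = 0 ∨ bz r + ∑ j ∈ Finset.Iic k, e j = 1) ∧
    (∀ j, bz (c j) + e j = 0 ∨ bz (c j) + e j = 1)}

/-- Package CR: one row of the counting model. -/
def S_CR : Prop := ∀ (N : ℕ) (r : Bool) (c : Fin N → Bool), ∃ hf : (Ev N r c).Finite,
  ∀ (R : Type) [CommRing R] (k : Bool → List Bool → R),
    row (L := Unit) (fun _ _ r c r' c' => if adm r c r' c' then (1 : R) else 0) ()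
      (List.replicate N ()) r (List.ofFn c) k =
    ∑ e ∈ hf.toFinset, k (decide (bz r + ∑ j, e j = 1))
      (List.ofFn fun j => decide (bz (c j) + e j = 1))

end Pool.Agent.U409.OA
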